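import Pool.Agent.H23.NVK.JTargets

/-!
# Board nvk_modules, module M_TRM: the main term for fixed discriminant over a number field
-/

set_option autoImplicit false

open MeasureTheory Set Filter NumberField NumberField.InfinitePlace
open scoped Real

namespace Pool.Agent.H39.NVK

open Pool.Agent.H23.NVK
open Pool.Agent.H65.CM4 (Pl dg nm)
open Pool.Agent.H61.NVK (Vk kp c0 sD ct)
open Pool.Agent.H89.NV (PrI np WW wbar wN wF dR qN RA sd)

theorem nS_eq {k : Type} [Field k] [NumberField k] (S : Finset (PrI k)) :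
    Pool.Agent.H89.NV.nS S = (nS (NP k) S : ℝ) := by
  unfold Pool.Agent.H89.NV.nS nS np nm NP
  rw [Nat.cast_prod]

theorem nm_mul {k : Type} [Field k] [NumberField k] (I J : Ideal (𝓞 k)) :
    nm (I * J) = nm I * nm J := by
  unfold nm
  rw [map_mul, Nat.cast_mul]

theorem nm_bot {k : Type} [Field k] [NumberField k] : nm (⊥ : Ideal (𝓞 k)) = 0 := by
  unfold nm
  rw [Ideal.absNorm_bot, Nat.cast_zero]

theorem Nb_eq {k : Type} [Field k] [NumberField k]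
    (hdv : ∀ (n : PrI k →₀ ℕ) (P : PrI k) (j : ℕ), P.1 ^ j ∣ idF n ↔ j ≤ n P)
    (m₁ m₂ : Finset (PrI k)) (e A : PrI k →₀ ℕ) :
    Pool.Agent.H89.NV.Nb m₁ m₂ (idF e) (idF A) = Nb (NP k) m₁ m₂ A e := by
  classical
  have hdv1 : ∀ (n : PrI k →₀ ℕ) (P : PrI k), P.1 ∣ idF n ↔ 1 ≤ n P := by
    intro n P
    have := hdv n P 1
    rwa [pow_one] at this
  unfold Pool.Agent.H89.NV.Nb Nb
  refine Finset.prod_congr ?_ (fun P _ => ?_)
  · ext P
    simp only [Finset.mem_union]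
  · by_cases hP : P ∈ m₁ ∧ P ∈ m₂
    · rw [if_pos hP, if_pos hP]
      have h1 : (if P.1 ^ 2 ∣ idF A then (1 : ℝ) else 0) = if 2 ≤ A P then 1 else 0 :=
        if_congr (hdv A P 2) rfl rfl
      have h2 : (if P.1 ∣ idF A ∧ P.1 ∣ idF e then (2 : ℝ) - 1 / np P else 0) =
          if 1 ≤ A P ∧ 1 ≤ e P then 2 - 1 / (NP k P : ℝ) else 0 :=
        if_congr (and_congr (hdv1 A P) (hdv1 e P)) rfl rfl
      have h3 : (if P.1 ∣ idF e then (1 : ℝ) else 0) = if 1 ≤ e P then 1 else 0 :=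
        if_congr (hdv1 e P) rfl rfl
      have h4 : (if P.1 ^ 2 ∣ idF e then (1 : ℝ) else 0) = if 2 ≤ e P then 1 else 0 :=
        if_congr (hdv e P 2) rfl rfl
      rw [h1, h2, h3, h4]
    · rw [if_neg hP, if_neg hP]
      have h1 : (if P.1 ∣ idF A then (1 : ℝ) else 0) = if 1 ≤ A P then 1 else 0 :=
        if_congr (hdv1 A P) rfl rfl
      have h3 : (if P.1 ∣ idF e then (1 : ℝ) else 0) = if 1 ≤ e P then 1 else 0 :=
        if_congr (hdv1 e P) rfl rfl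
      rw [h1, h3]

theorem pf_TRM (hB : T_BRG) : T_TRM := by
  intro k _ _ _ f q n m₁ m₂ w d hf hd hn
  obtain ⟨e, h1, h2, -, h4, -, -, -⟩ := hB k
  have hdv : ∀ (n : PrI k →₀ ℕ) (P : PrI k) (j : ℕ), P.1 ^ j ∣ idF n ↔ j ≤ n P := by
    intro n P j
    rw [← h1 n]
    exact h4 n P j
  have hnm : ∀ n : PrI k →₀ ℕ, nm (idF n) = (nF (NP k) n : ℝ) := by
    intro n
    unfold nm
    rw [← h1 n, h2 n]
  have hinj : Function.Injective (fun x : (PrI k →₀ ℕ) × (PrI k →₀ ℕ) =>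
      ((idF x.1, idF x.2) : Ideal (𝓞 k) × Ideal (𝓞 k))) := by
    intro x y hxy
    have hxy1 : idF x.1 = idF y.1 := congrArg Prod.fst hxy
    have hxy2 : idF x.2 = idF y.2 := congrArg Prod.snd hxy
    have e1 : x.1 = y.1 := e.injective (Subtype.ext (by rw [h1, h1, hxy1]))
    have e2 : x.2 = y.2 := e.injective (Subtype.ext (by rw [h1, h1, hxy2]))
    exact Prod.ext e1 e2
  have hsd : 0 ≤ sd f d := by
    unfold sd sD nm
    positivity
  unfold Pool.Agent.H89.NV.Mn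
  rw [← hinj.tsum_eq (f := fun x : Ideal (𝓞 k) × Ideal (𝓞 k) =>
    Pool.Agent.H89.NV.wt f (n * Pool.Agent.H89.NV.nS m₁ * Pool.Agent.H89.NV.nS m₂) x.1 x.2 d *
      wbar f q w x.1 x.2 * Pool.Agent.H89.NV.Nb m₁ m₂ x.1 x.2 * ct x.2 f d) ?_]
  · unfold Mn
    rw [← tsum_mul_left]
    refine tsum_congr (fun x => ?_)
    show Pool.Agent.H89.NV.wt f (n * Pool.Agent.H89.NV.nS m₁ * Pool.Agent.H89.NV.nS m₂)
        (idF x.1) (idF x.2) d * wbar f q w (idF x.1) (idF x.2) *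
        Pool.Agent.H89.NV.Nb m₁ m₂ (idF x.1) (idF x.2) * ct (idF x.2) f d = _
    rw [Nb_eq hdv, Real.sqrt_sq hsd, nS_eq, nS_eq]
    unfold Pool.Agent.H89.NV.wt ct
    have e3 : nm (idF x.1 ^ 2 * idF x.2) = (nF (NP k) x.1 : ℝ) ^ 2 * nF (NP k) x.2 := by
      rw [nm_mul, pow_two, nm_mul, hnm, hnm, pow_two]
    have e4 : sD d / (nm f * nm (idF x.2)) = sd f d / (nF (NP k) x.2 : ℝ) := by
      unfold sd
      rw [hnm, div_div]
    rw [e3, e4, hnm]
    ring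
  · intro x hx
    have hne : nm (x.1 ^ 2 * x.2) ≠ 0 := by
      intro h0
      apply hx
      show Pool.Agent.H89.NV.wt f (n * Pool.Agent.H89.NV.nS m₁ * Pool.Agent.H89.NV.nS m₂)
        x.1 x.2 d * wbar f q w x.1 x.2 * Pool.Agent.H89.NV.Nb m₁ m₂ x.1 x.2 * ct x.2 f d = 0
      unfold Pool.Agent.H89.NV.wt
      rw [h0, Real.sqrt_zero, div_zero]
      ring
    have hx1 : x.1 ≠ ⊥ := by
      intro h0
      apply hne
      rw [nm_mul, pow_two, nm_mul, h0, nm_bot]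
      ring
    have hx2 : x.2 ≠ ⊥ := by
      intro h0
      apply hne
      rw [nm_mul, h0, nm_bot]
      ring
    refine ⟨(e.symm ⟨x.1, hx1⟩, e.symm ⟨x.2, hx2⟩), ?_⟩
    show (idF (e.symm ⟨x.1, hx1⟩), idF (e.symm ⟨x.2, hx2⟩)) = x
    rw [← h1, ← h1, Equiv.apply_symm_apply, Equiv.apply_symm_apply]

end Pool.Agent.H39.NVK
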